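import Pool.Agent.FB90.Defs
import Pool.Agent.CB90.Trunc

/-!
# Solvability and ring homomorphisms; only finitely many base variables matter
-/

namespace FB90

open LD90

section map

variable {R S : Type*} [CommRing R] [CommRing S]

theorem base_iff {t : R} {B : List PL} {s : ℕ → R} : Base t B s ↔ CB90.Base t B s := Iff.rfl

theorem vars_iff {n : ℕ} {c : PL} : Vars n c ↔ CB90.Vars n c := Iff.rfl

theorem qv_eq (t : R) (s x : ℕ → R) (l : List (PL × List ℕ)) : qv t s x l = CB90.qv t s x l := rfl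

theorem fv_map (φ : R →+* S) (t : R) (s : ℕ → R) (l : List (PL × PL)) : ∀ y : ℕ → ℕ → R,
    fv (φ t) (fun i => φ (s i)) l (fun i k => φ (y i k)) = φ (fv t s l y) := by
  induction l with
  | nil => intro y; simp [fv]
  | cons a l ih =>
    intro y
    obtain ⟨a, F⟩ := a
    rw [fv, fv, map_add, map_mul, CB90.ev_map', CB90.ev_map']
    congr 1
    exact ih fun i => y (i + 1)

/-- FB-1 -/
theorem val_map (φ : R →+* S) (t : R) (s x : ℕ → R)
    (y : ℕ → ℕ → R) (f : Eqn) : Eqn.val (φ t) (fun i => φ (s i)) (fun i => φ (x i))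
      (fun i k => φ (y i k)) f = φ (Eqn.val t s x y f) := by
  rw [Eqn.val, Eqn.val, map_add, fv_map, qv_eq, CB90.qv_map, qv_eq]

theorem PSol.map (φ : R →+* S) (hφ : Function.Injective φ) {t : R}
    {a : List PL × List Eqn × PL} (h : PSol t a) : PSol (φ t) a := by
  obtain ⟨s, h0, h1, h2⟩ := h
  refine ⟨fun i => φ (s i), CB90.Base.map φ hφ h0, ?_, fun f hf => ?_⟩
  · rw [CB90.ev_map']
    exact fun h => h1 ((map_eq_zero_iff φ hφ).1 h)
  · obtain ⟨x, y, hxy⟩ := h2 f hf
    exact ⟨fun i => φ (x i), fun i k => φ (y i k), by rw [val_map, hxy, map_zero]⟩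

theorem fv_congr_s {n : ℕ} (t : R) {s s' : ℕ → R} (h : ∀ i ≤ n, s i = s' i)
    (l : List (PL × PL)) : ∀ (_ : ∀ m ∈ l, Vars n m.1) (y : ℕ → ℕ → R),
      fv t s l y = fv t s' l y := by
  induction l with
  | nil => intro _ y; simp [fv]
  | cons a l ih =>
    intro hl y
    obtain ⟨a, F⟩ := a
    rw [fv, fv, CB90.ev_congr (hl _ (List.mem_cons_self)) t h,
      ih fun m hm => hl m (List.mem_cons_of_mem _ hm)]

/-- the other base variables are irrelevant -/
theorem trunc {p : ℕ} (t : R) (a : List PL × List Eqn × PL)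
    (ha : Adm p a) (s : ℕ → R) (h : Base t a.1 s ∧ ev t s a.2.2 ≠ 0 ∧
      ∀ f ∈ a.2.1, ∃ (x : ℕ → R) (y : ℕ → ℕ → R), Eqn.val t s x y f = 0) :
    let s' : ℕ → R := fun i => if i ≤ a.1.length then s i else 0
    Base t a.1 s' ∧ ev t s' a.2.2 ≠ 0 ∧
      ∀ f ∈ a.2.1, ∃ (x : ℕ → R) (y : ℕ → ℕ → R), Eqn.val t s' x y f = 0 := by
  intro s'
  have hs' : ∀ i ≤ a.1.length, s i = s' i := fun i hi => by
    simp only [s', if_pos hi]
  obtain ⟨a1, a2, a3⟩ := ha
  obtain ⟨h1, h2, h3⟩ := h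
  obtain ⟨h4, -, -⟩ := CB90.trunc (p := p) t (a.1, [], [(0, [])]) ⟨a1, fun f hf => by simp at hf,
    fun m hm => by
      rw [List.mem_singleton] at hm
      subst hm
      intro i hi
      simp at hi⟩ s ⟨h1, by
        intro h
        apply h2
        have h5 : (1 : R) = 0 := by simpa [ev] using h
        rw [← mul_one (ev t s a.2.2), h5, mul_zero], fun f hf => by simp at hf⟩
  refine ⟨h4, ?_, ?_⟩
  · rw [← CB90.ev_congr a3 t hs']
    exact h2
  · intro f hf
    obtain ⟨x, y, hxy⟩ := h3 f hf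
    refine ⟨x, y, ?_⟩
    rw [Eqn.val, qv_eq] at hxy ⊢
    rw [← CB90.qv_congr_s t hs' x f.1 fun m hm => ((a2 f hf).1 m hm).1,
      ← fv_congr_s t hs' f.2 fun m hm => ((a2 f hf).2 m hm).1]
    exact hxy

end map

end FB90
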