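import Pool.Agent.CB90.Up
import Pool.Agent.FB90.Map

/-!
# Solvable equations are solvable in every relatively closed subfield
-/

set_option maxSynthPendingDepth 10

namespace FB90

open FT80 BF80 LD90

section forms

variable {R : Type*} [CommRing R]

theorem ev_append (t : R) (s : ℕ → R) (a b : PL) : ev t s (a ++ b) = ev t s a + ev t s b := by
  rw [ev, ev, ev, List.map_append, List.sum_append]

/-- multiplication by `γ t ^ i` -/
def mulc (a : PL) (i : ℕ) : ℕ → PL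
  | 0 => []
  | γ + 1 => a.map (fun m => (m.1 + i, m.2)) ++ mulc a i γ

theorem ev_mulc (t : R) (s : ℕ → R) (a : PL) (i γ : ℕ) :
    ev t s (mulc a i γ) = ev t s a * (γ * t ^ i) := by
  induction γ with
  | zero => simp [mulc, ev]
  | succ γ ih =>
    rw [mulc, ev_append, ih]
    have h1 : ev t s (a.map fun m => (m.1 + i, m.2)) = ev t s a * t ^ i := by
      rw [ev, ev, List.map_map, ← List.sum_map_mul_right]
      congr 1
      refine List.map_congr_left fun m _ => ?_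
      simp only [Function.comp_apply, pow_add]
      ring
    rw [h1]
    push_cast
    ring

theorem prod_map_smul (c : R) (y : ℕ → R) (l : List ℕ) :
    (l.map fun k => c * y k).prod = c ^ l.length * (l.map y).prod := by
  induction l with
  | nil => simp
  | cons a l ih =>
    rw [List.map_cons, List.prod_cons, ih, List.map_cons, List.prod_cons, List.length_cons, pow_succ]
    ring

theorem ev_hom (t c : R) (y : ℕ → R) (F : PL) (d : ℕ) (hF : ∀ m ∈ F, m.2.length = d) :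
    ev t (fun k => c * y k) F = c ^ d * ev t y F := by
  rw [ev, ev, ← List.sum_map_mul_left]
  congr 1
  refine List.map_congr_left fun m hm => ?_
  rw [prod_map_smul, hF m hm]
  ring

end forms

section up

variable {p : ℕ} [hp : Fact p.Prime] {M : Type} [Field M] {σ : P1 p →+* M}

/-- values of forms up to powers -/
def VCl (p : ℕ) [Fact p.Prime] (σ : P1 p →+* M) : Prop :=
  ∀ (F : PL) (d : ℕ), ¬ p ∣ d → (∀ m ∈ F, m.2.length = d) →
    (d ≤ 3 ∨ ∀ m ∈ F, ∀ i ∈ m.2, i = 0) → ∀ y : ℕ → M,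
    ∃ (γ i : ℕ) (z : M) (y0 : ℕ → k0 p), ev (σ Polynomial.X) y F =
      γ * σ Polynomial.X ^ i * z ^ d ∧
      ev (sig0 p Polynomial.X) y0 F = γ * sig0 p Polynomial.X ^ i

/-- the part given by forms and diagonal parts -/
theorem fv_to_dv (hV : VCl p σ) (j : k0 p →+* M) (hj : ∀ f, j (sig0 p f) = σ f) (s : ℕ → M)
    (l : List (PL × PL)) : ∀ (_ : ∀ m ∈ l, Form p m.2) (y : ℕ → ℕ → M),
      ∃ l' : List (PL × ℕ), (∀ m ∈ l', ¬ p ∣ m.2) ∧
        (∃ z : ℕ → M, CB90.dv (σ Polynomial.X) s l' z = fv (σ Polynomial.X) s l y) ∧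
        ∀ z : ℕ → M, ∃ y' : ℕ → ℕ → M, (∀ P : M → Prop, (∀ a, P (j a)) →
          (∀ u v, P u → P v → P (u * v)) → (∀ i, P (z i)) → ∀ i k, P (y' i k)) ∧
            fv (σ Polynomial.X) s l y' = CB90.dv (σ Polynomial.X) s l' z := by
  induction l with
  | nil =>
    intro _ y
    refine ⟨[], fun m hm => by simp at hm, ⟨fun _ => 0, rfl⟩, fun z => ⟨fun i _ => z i, ?_, rfl⟩⟩
    exact fun P _ _ hz i _ => hz i
  | cons a l ih =>
    intro hl y
    obtain ⟨a, F⟩ := a
    obtain ⟨l', h1, ⟨z, hz⟩, h3⟩ := ih (fun m hm => hl m (List.mem_cons_of_mem _ hm))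
      fun i => y (i + 1)
    obtain ⟨d, hd, hF, hF'⟩ := hl (a, F) List.mem_cons_self
    obtain ⟨γ, i, z0, y0, h4, h5⟩ := hV F d hd hF hF' (y 0)
    refine ⟨(mulc a i γ, d) :: l', ?_, ⟨fun n => Nat.casesOn n z0 z, ?_⟩, fun w => ?_⟩
    · intro m hm
      rcases List.mem_cons.1 hm with rfl | hm
      · exact hd
      · exact h1 m hm
    · rw [CB90.dv, fv, ev_mulc, h4]
      rw [← hz]
      show ev (σ Polynomial.X) s a * (γ * σ Polynomial.X ^ i) * z0 ^ d +
        CB90.dv (σ Polynomial.X) s l' z = _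
      ring
    · obtain ⟨y', h6, h7⟩ := h3 fun i => w (i + 1)
      refine ⟨fun n => Nat.casesOn n (fun k => w 0 * j (y0 k)) y', ?_, ?_⟩
      · intro P hP1 hP2 hP3 n k
        cases n with
        | zero => exact hP2 _ _ (hP3 0) (hP1 _)
        | succ n => exact h6 P hP1 hP2 (fun i => hP3 (i + 1)) n k
      · rw [CB90.dv, fv, ev_mulc]
        have h8 : ev (σ Polynomial.X) (fun k => w 0 * j (y0 k)) F =
            w 0 ^ d * (γ * σ Polynomial.X ^ i) := by
          rw [ev_hom _ _ _ F d hF, ← hj, CB90.ev_map', h5, map_mul, map_pow, map_natCast]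
        have h9 : fv (σ Polynomial.X) s l y' = CB90.dv (σ Polynomial.X) s l' fun i => w (i + 1) :=
          h7
        show ev (σ Polynomial.X) s a * ev (σ Polynomial.X) (fun k => w 0 * j (y0 k)) F +
          fv (σ Polynomial.X) s l y' = _
        rw [h8, h9]
        ring

/-- FB-3: a solvable equation is solvable by elements algebraic over the parameter -/
theorem up_r (hV : VCl p σ) (hCD : OP90.CD p) (hA : OP90.QNF) (hM : Mdl p σ) (s : ℕ → M)
    (hs : ∀ i, OP90.RAlg σ (s 0) (s i)) (f : Eqn)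
    (hf : (∀ m ∈ f.1, m.2.length ≤ 2 ∧ (p = 2 → m.2.length ≤ 1)) ∧ ∀ m ∈ f.2, Form p m.2)
    (h : ∃ (x : ℕ → M) (y : ℕ → ℕ → M), Eqn.val (σ Polynomial.X) s x y f = 0) :
    ∃ (x : ℕ → M) (y : ℕ → ℕ → M), (∀ i, OP90.RAlg σ (s 0) (x i)) ∧
      (∀ i k, OP90.RAlg σ (s 0) (y i k)) ∧ Eqn.val (σ Polynomial.X) s x y f = 0 := by
  obtain ⟨j, hj, -⟩ := hM.exists_j
  obtain ⟨x, y, hxy⟩ := h
  obtain ⟨l', h1, ⟨z, hz⟩, h3⟩ := fv_to_dv hV j hj s f.2 hf.2 y
  obtain ⟨x', z', hx', hz', h4⟩ := CB90.up_r hCD hA hM s hs (f.1, l') ⟨hf.1, h1⟩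
    ⟨x, z, by rw [CB90.Eqn.val, hz]; exact hxy⟩
  obtain ⟨y', h5, h6⟩ := h3 z'
  refine ⟨x', y', hx', ?_, ?_⟩
  · refine h5 (OP90.RAlg σ (s 0)) (fun a => ?_) (fun u v hu hv => ?_) hz'
    · exact ⟨fun _ => hM.alg1_hom j hj a, alg1_lift (hM.alg1_hom j hj a)⟩
    · exact ⟨fun h0 => mul_mem (S := Subfield M) (s := algField σ) (hu.1 h0) (hv.1 h0),
        mul_mem (S := Subfield M) (s := algField (ev1 σ (s 0))) hu.2 hv.2⟩
  · rw [Eqn.val, h6]
    exact h4

end up

end FB90
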