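import Pool.Agent.FB90.Defs
import Pool.Agent.LD90.Main
import Pool.Agent.OP90.ConstDiag

/-!
# Values of forms

A nonzero value of a form of degree `d` prime to `p` over a model is `γ t ^ i z ^ d`, and `γ t ^ i`
is a value over `k0`, if `d ≤ 3` or the form is `c * y ^ d`.
-/

set_option maxSynthPendingDepth 10

namespace FB90

open FT80 BF80 LD90

namespace VC

/-- transfer of systems of low degree from a model to `k0` -/
theorem transfer {p : ℕ} [Fact p.Prime] {M : Type} [Field M] {σ : P1 p →+* M} (hM : Mdl p σ)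
    (a : List PL × PL) (ha : (a.1.map fun f => deg f - 1).sum ≤ 2)
    (h : Sol (σ Polynomial.X) a) : Sol (sig0 p Polynomial.X) a := by
  obtain ⟨j, st, hj, hC⟩ := ctx_of_mdl p M σ hM
  rw [← hj] at h
  have hcub : ∀ (n d : ℕ), d ≤ 3 → ∀ (f g : MvPolynomial (Fin n) (k0 p)), f.IsHomogeneous d →
      ∀ (x : Fin n → M), MvPolynomial.eval₂ j x f = 0 → MvPolynomial.eval₂ j x g ≠ 0 →
      ∃ z : Fin n → k0 p, MvPolynomial.eval z f = 0 ∧ MvPolynomial.eval z g ≠ 0 :=
    fun n d hd f g hf x h0 h1 => cubic_of hC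
      (fun n f g hf hfg ξ h0 l h1 => smooth hC hf hfg h0 l h1) n d hd f g hf x h0 h1
  refine sol_of_sys j (fun n Λ F hΛ hF g x h1 h2 h3 => ?_) _ a ha h
  exact sys_of j hcub
    (fun n f1 f2 g h1 h2 x h3 h4 h5 => quad2_of hC hcub n f1 f2 g h1 h2 x h3 h4 h5)
    Λ F hΛ hF g x h1 h2 h3

theorem ev_cons {R : Type*} [CommRing R] (t : R) (x : ℕ → R) (m : ℕ × List ℕ) (f : PL) :
    ev t x (m :: f) = t ^ m.1 * (m.2.map x).prod + ev t x f := by
  rw [ev, List.map_cons, List.sum_cons]
  rfl

theorem ev_append {R : Type*} [CommRing R] (t : R) (x : ℕ → R) (f g : PL) :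
    ev t x (f ++ g) = ev t x f + ev t x g := by
  rw [ev, List.map_append, List.sum_append]
  rfl

theorem ev_replicate {R : Type*} [CommRing R] (t : R) (x : ℕ → R) (n i : ℕ) :
    ev t x (List.replicate n (i, [])) = n * t ^ i := by
  rw [ev, List.map_replicate, List.sum_replicate, nsmul_eq_mul]
  simp

/-- scaling -/
theorem ev_div {L : Type*} [Field L] (t z : L) (hz : z ≠ 0) (y : ℕ → L) {d : ℕ} (F : PL)
    (hF : ∀ m ∈ F, m.2.length = d) :
    ev t y F = z ^ d * ev t (fun k => y k / z) F := by
  induction F with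
  | nil => simp [ev]
  | cons m F ih =>
    rw [ev_cons, ev_cons, ih fun m hm => hF m (List.mem_cons_of_mem _ hm),
      Hg.prod_div z hz y m.2, hF m List.mem_cons_self]
    ring

theorem ev_zero {R : Type*} [CommRing R] (t : R) {d : ℕ} (hd : d ≠ 0) (F : PL)
    (hF : ∀ m ∈ F, m.2.length = d) : ev t (fun _ => (0 : R)) F = 0 := by
  induction F with
  | nil => simp [ev]
  | cons m F ih =>
    rw [ev_cons, ih fun m hm => hF m (List.mem_cons_of_mem _ hm), add_zero, List.map_const',
      List.prod_replicate, hF m List.mem_cons_self, zero_pow hd, mul_zero]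

/-- forms in one variable -/
theorem ev_one {R : Type*} [CommRing R] (t : R) (y : ℕ → R) {d : ℕ} (F : PL)
    (hF : ∀ m ∈ F, m.2.length = d) (hF0 : ∀ m ∈ F, ∀ i ∈ m.2, i = 0) :
    ev t y F = (F.map fun m => t ^ m.1).sum * y 0 ^ d := by
  induction F with
  | nil => simp [ev]
  | cons m F ih =>
    have h1 : m.2 = List.replicate d 0 :=
      List.eq_replicate_iff.2 ⟨hF m List.mem_cons_self, hF0 m List.mem_cons_self⟩
    rw [ev_cons, ih (fun m hm => hF m (List.mem_cons_of_mem _ hm))
      (fun m hm => hF0 m (List.mem_cons_of_mem _ hm)), h1, List.map_replicate,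
      List.prod_replicate, List.map_cons, List.sum_cons]
    ring

theorem deg_le {F : PL} {d : ℕ} (h : ∀ m ∈ F, m.2.length ≤ d) : deg F ≤ d := by
  induction F with
  | nil => exact Nat.zero_le _
  | cons m F ih =>
    have e : deg (m :: F) = max m.2.length (deg F) := rfl
    rw [e]
    exact max_le (h m List.mem_cons_self) (ih fun m hm => h m (List.mem_cons_of_mem _ hm))

end VC

open VC

/-- FB-2 (ValueClass.lean): a value of a form differs from a value at a point of `k0`, which is
`γ t ^ i`, by a `d`-th power -/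
theorem value_class {p : ℕ} [Fact p.Prime] {M : Type} [Field M] {σ : P1 p →+* M}
    (hM : Mdl p σ) (F : PL) (d : ℕ) (hd : ¬ p ∣ d) (hF : ∀ m ∈ F, m.2.length = d)
    (hF' : d ≤ 3 ∨ ∀ m ∈ F, ∀ i ∈ m.2, i = 0) (y : ℕ → M) :
    ∃ (γ i : ℕ) (z : M) (y0 : ℕ → k0 p), ev (σ Polynomial.X) y F =
      γ * σ Polynomial.X ^ i * z ^ d ∧
      ev (sig0 p Polynomial.X) y0 F = γ * sig0 p Polynomial.X ^ i := by
  have hd0 : d ≠ 0 := fun h => hd (h ▸ dvd_zero p)
  by_cases h0 : ev (σ Polynomial.X) y F = 0
  · refine ⟨0, 0, 0, fun _ => 0, ?_, ?_⟩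
    · rw [h0, Nat.cast_zero, zero_mul, zero_mul]
    · rw [ev_zero _ hd0 F hF, Nat.cast_zero, zero_mul]
  obtain ⟨γ, -, i, -, z, -, hz⟩ := hM.pow d hd _ h0
  have hz0 : z ≠ 0 := by
    rintro rfl
    rw [zero_pow hd0, mul_zero] at hz
    exact h0 hz
  have hy : ev (σ Polynomial.X) (fun k => y k / z) F = γ * σ Polynomial.X ^ i := by
    have h1 := ev_div (σ Polynomial.X) z hz0 y F hF
    rw [hz, mul_comm] at h1
    exact (mul_left_cancel₀ (pow_ne_zero d hz0) h1).symm
  have hne : (γ : M) * σ Polynomial.X ^ i ≠ 0 := by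
    intro h
    rw [h, zero_mul] at hz
    exact h0 hz
  rcases hF' with h3 | h3
  · -- degree at most 3
    have hp : ∀ {R : Type} [Field R] (τ : P1 p →+* R) (x : ℕ → R),
        ev (τ Polynomial.X) x (List.replicate ((p - 1) * γ) (i, []) ++ F) =
          ev (τ Polynomial.X) x F - γ * τ Polynomial.X ^ i := by
      intro R _ τ x
      have h4 : ((p : ℕ) : R) = 0 := by
        have h5 : ((p : ℕ) : R) = τ ((p : ℕ) : P1 p) := (map_natCast τ p).symm
        rw [h5, ← Polynomial.C_eq_natCast, CharP.cast_eq_zero, Polynomial.C_0, map_zero]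
      have h5 : (((p - 1 : ℕ)) : R) = -1 := by
        have h6 : ((p - 1 + 1 : ℕ) : R) = 0 := by
          rw [Nat.sub_add_cancel (Fact.out : p.Prime).one_lt.le]
          exact h4
        rw [Nat.cast_add, Nat.cast_one] at h6
        linear_combination h6
      rw [ev_append, ev_replicate, Nat.cast_mul, h5]
      ring
    obtain ⟨x, hx, -⟩ := transfer hM ([List.replicate ((p - 1) * γ) (i, []) ++ F], [(0, [])])
      (by
        have h4 : deg (List.replicate ((p - 1) * γ) (i, []) ++ F) ≤ 3 := by
          apply deg_le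
          intro m hm
          rcases List.mem_append.1 hm with hm | hm
          · rw [(List.mem_replicate.1 hm).2]
            exact Nat.zero_le _
          · rw [hF m hm]
            exact h3
        simp only [List.map_cons, List.map_nil, List.sum_cons, List.sum_nil]
        omega)
      ⟨fun k => y k / z, by
        intro f hf
        rw [List.mem_singleton] at hf
        rw [hf, hp σ, hy, sub_self], by
        simp [ev]⟩
    refine ⟨γ, i, z, x, hz, ?_⟩
    have h4 := hx _ (List.mem_singleton_self _)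
    rw [hp (sig0 p)] at h4
    exact sub_eq_zero.1 h4
  · -- one variable
    obtain ⟨j, hj, hj2, -, -⟩ := hM.exists_j
    rw [ev_one _ _ F hF h3] at hy
    have hc : (F.map fun m => σ Polynomial.X ^ m.1).sum =
        σ (F.map fun m => (Polynomial.X : P1 p) ^ m.1).sum := by
      rw [map_list_sum, List.map_map]
      congr 1
      refine List.map_congr_left fun m _ => ?_
      simp only [Function.comp_apply, map_pow]
    have hc0 : σ (F.map fun m => (Polynomial.X : P1 p) ^ m.1).sum ≠ 0 := by
      intro h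
      rw [hc, h, zero_mul] at hy
      exact hne hy.symm
    have hpow : (y 0 / z) ^ d = σ ((γ : P1 p) * (Polynomial.X : P1 p) ^ i) /
        σ (F.map fun m => (Polynomial.X : P1 p) ^ m.1).sum := by
      rw [eq_div_iff hc0, map_mul, map_natCast, map_pow, mul_comm, ← hc]
      exact hy
    have halg : BF80.Alg1 σ (y 0 / z) := by
      refine OP90.CD.alg_of_pow σ hd0 ?_
      rw [hpow]
      exact (algField σ).div_mem (Alg1.self σ _) (Alg1.self σ _)
    obtain ⟨ζ, hζ⟩ := (hj2 _).1 halg
    refine ⟨γ, i, z, fun _ => ζ, hz, ?_⟩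
    apply j.injective
    rw [ev_one _ _ F hF h3, map_mul, map_pow, hζ, map_mul, map_natCast, map_pow, hj,
      map_list_sum, List.map_map]
    have h4 : (F.map (j ∘ fun m => sig0 p Polynomial.X ^ m.1)).sum =
        (F.map fun m => σ Polynomial.X ^ m.1).sum := by
      congr 1
      refine List.map_congr_left fun m _ => ?_
      simp only [Function.comp_apply, map_pow, hj]
    rw [h4]
    exact hy

end FB90
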