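import Pool.Agent.FB90.Defs
import Pool.Agent.CB90.Dec

/-!
# The decision wrapper for equations with forms over a base of dimension one

As in `CB90.Dec`; the variable `y_{i,k}` of the equation with `j` equations behind it, `i` being the
number of forms behind the form, is the variable `4 * pair j (pair i k) + 3`.
-/

set_option maxSynthPendingDepth 10
set_option autoImplicit false

open Polynomial

namespace FB90

open FT80 BF80 LD90

namespace De

open CB90.De (ren vs vx vz mul1 mulP qL pB)

/-- the variables `y_{i,k}` of the equation number `j` -/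
def vw (j i k : ℕ) : ℕ := 4 * Nat.pair j (Nat.pair i k) + 3

/-- a term `a(s) * F(y)` -/
def tm (j i : ℕ) (m : PL × PL) : PL := mulP (mul1 [] m.1) (ren (vw j i) m.2)

/-- the part given by forms -/
def dL (j : ℕ) : List (PL × PL) → PL
  | [] => []
  | m :: l => tm j l.length m ++ dL j l

/-- an equation -/
def eL (j : ℕ) (f : Eqn) : PL := qL j f.1 ++ dL j f.2

/-- the equations -/
def sL : List Eqn → List PL
  | [] => []
  | f :: fs => eL fs.length f :: sL fs

/-- the translation -/
def tr (a : List PL × List Eqn × PL) : List PL × PL :=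
  (a.1.map (mul1 []) ++ sL a.2.1, pB a.1 a.2.2 a.1.length)

section sem

variable {R : Type*} [CommRing R] (t : R)

theorem ev_mul1_nil (X : ℕ → R) (b : PL) : ev t X (mul1 [] b) = ev t (fun i => X (vs i)) b := by
  rw [CB90.De.ev_mul1]
  simp

theorem ev_qL (X : ℕ → R) (j : ℕ) (l : List (PL × List ℕ)) :
    ev t X (qL j l) = qv t (fun i => X (vs i)) (fun i => X (vx j i)) l :=
  CB90.De.ev_qL t X j l

/-- the forms with reversed variables -/
def fr {R : Type*} [CommRing R] (t : R) (s : ℕ → R) : List (PL × PL) → (ℕ → ℕ → R) → R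
  | [], _ => 0
  | m :: l, y => ev t s m.1 * ev t (y l.length) m.2 + fr t s l y

theorem ev_dL (X : ℕ → R) (j : ℕ) (l : List (PL × PL)) :
    ev t X (dL j l) = fr t (fun i => X (vs i)) l (fun i k => X (vw j i k)) := by
  induction l with
  | nil => simp [ev, dL, fr]
  | cons m l ih =>
    rw [dL, CB90.De.ev_append, tm, CB90.De.ev_mulP, ev_mul1_nil, CB90.De.ev_ren, ih, fr]

theorem fv_congr (s : ℕ → R) (l : List (PL × PL)) : ∀ y y' : ℕ → ℕ → R,
    (∀ i < l.length, y i = y' i) → fv t s l y = fv t s l y' := by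
  induction l with
  | nil => intro y y' _; rfl
  | cons m l ih =>
    intro y y' h
    obtain ⟨a, F⟩ := m
    rw [fv, fv, h 0 (by simp), ih (fun i => y (i + 1)) (fun i => y' (i + 1))
      (fun i hi => h (i + 1) (by simpa using hi))]

theorem fr_eq (s : ℕ → R) (l : List (PL × PL)) : ∀ y : ℕ → ℕ → R,
    fr t s l y = fv t s l (fun i => y (l.length - 1 - i)) := by
  induction l with
  | nil => intro y; rfl
  | cons m l ih =>
    intro y
    obtain ⟨a, F⟩ := m
    rw [fr, fv, ih]
    have h1 : ((a, F) :: l).length - 1 - 0 = l.length := by simp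
    have h2 : (fun i => y (((a, F) :: l).length - 1 - (i + 1))) =
        fun i => y (l.length - 1 - i) := by
      funext i
      congr 1
      simp only [List.length_cons]
      omega
    rw [h1, h2]

theorem exists_fr (s : ℕ → R) (l : List (PL × PL)) (y : ℕ → ℕ → R) :
    ∃ y' : ℕ → ℕ → R, fr t s l y' = fv t s l y := by
  refine ⟨fun i => y (l.length - 1 - i), ?_⟩
  rw [fr_eq]
  refine fv_congr t s l _ _ fun i hi => ?_
  congr 1
  omega

/-- an equation with reversed variables -/
def valr {R : Type*} [CommRing R] (t : R) (s x : ℕ → R) (y : ℕ → ℕ → R) (f : Eqn) : R :=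
  qv t s x f.1 + fr t s f.2 y

theorem exists_val (s : ℕ → R) (f : Eqn) :
    (∃ (x : ℕ → R) (y : ℕ → ℕ → R), Eqn.val t s x y f = 0) ↔
      ∃ (x : ℕ → R) (y : ℕ → ℕ → R), valr t s x y f = 0 := by
  constructor
  · rintro ⟨x, y, h⟩
    obtain ⟨y', hy'⟩ := exists_fr t s f.2 y
    refine ⟨x, y', ?_⟩
    rw [valr, hy']
    exact h
  · rintro ⟨x, y, h⟩
    rw [valr, fr_eq] at h
    exact ⟨x, _, h⟩

theorem ev_eL (X : ℕ → R) (j : ℕ) (f : Eqn) :
    ev t X (eL j f) =
      valr t (fun i => X (vs i)) (fun i => X (vx j i)) (fun i k => X (vw j i k)) f := by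
  rw [eL, CB90.De.ev_append, ev_qL, ev_dL, valr]

theorem sL_cons (X : ℕ → R) (f : Eqn) (fs : List Eqn) :
    (∀ g ∈ sL (f :: fs), ev t X g = 0) ↔
      valr t (fun i => X (vs i)) (fun i => X (vx fs.length i)) (fun i k => X (vw fs.length i k))
        f = 0 ∧ ∀ g ∈ sL fs, ev t X g = 0 := by
  rw [sL, List.forall_mem_cons, ev_eL]

theorem sL_congr (fs : List Eqn) (X X' : ℕ → R) (h0 : ∀ i, X (vs i) = X' (vs i))
    (hx : ∀ j < fs.length, ∀ i, X (vx j i) = X' (vx j i))
    (hy : ∀ j < fs.length, ∀ i k, X (vw j i k) = X' (vw j i k)) :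
    (∀ g ∈ sL fs, ev t X g = 0) → ∀ g ∈ sL fs, ev t X' g = 0 := by
  induction fs with
  | nil => intro _ g hg; simp [sL] at hg
  | cons f fs ih =>
    rw [sL_cons, sL_cons]
    rintro ⟨h1, h2⟩
    have e0 : (fun i => X (vs i)) = fun i => X' (vs i) := funext h0
    have e1 : (fun i => X (vx fs.length i)) = fun i => X' (vx fs.length i) :=
      funext fun i => hx _ (by simp) i
    have e2 : (fun i k => X (vw fs.length i k)) = fun i k => X' (vw fs.length i k) :=
      funext fun i => funext fun k => hy _ (by simp) i k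
    rw [e0, e1, e2] at h1
    refine ⟨h1, ih (fun j hj i => hx j ?_ i) (fun j hj i k => hy j ?_ i k) h2⟩
    · rw [List.length_cons]; omega
    · rw [List.length_cons]; omega

/-- the variables `4 * i` and `4 * i + 1` can be prescribed -/
theorem sL_sat (s z : ℕ → R) (fs : List Eqn) :
    (∃ X : ℕ → R, (∀ i, X (vs i) = s i) ∧ (∀ i, X (4 * i + 1) = z i) ∧
      ∀ g ∈ sL fs, ev t X g = 0) ↔
      ∀ f ∈ fs, ∃ (x : ℕ → R) (y : ℕ → ℕ → R), valr t s x y f = 0 := by
  constructor
  · rintro ⟨X, hs, -, h⟩
    have hs' : (fun i => X (vs i)) = s := funext hs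
    induction fs with
    | nil => intro f hf; simp at hf
    | cons f fs ih =>
      rw [sL_cons, hs'] at h
      intro f' hf'
      rcases List.mem_cons.1 hf' with rfl | hf'
      · exact ⟨_, _, h.1⟩
      · exact ih h.2 f' hf'
  · intro h
    induction fs with
    | nil =>
      refine ⟨fun v => if v % 4 = 0 then s (v / 4) else z (v / 4), fun i => ?_, fun i => ?_,
        fun g hg => by simp [sL] at hg⟩
      · have e1 : vs i % 4 = 0 := by simp only [vs]; omega
        have e2 : vs i / 4 = i := by simp only [vs]; omega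
        simp only [e1, e2, if_true]
      · have e1 : ¬ (4 * i + 1) % 4 = 0 := by omega
        have e2 : (4 * i + 1) / 4 = i := by omega
        simp only [e1, e2, if_false]
    | cons f fs ih =>
      obtain ⟨X, h0, hz, h1⟩ := ih fun f' hf' => h f' (List.mem_cons_of_mem _ hf')
      obtain ⟨x, y, h2⟩ := h f List.mem_cons_self
      classical
      let X' : ℕ → R := fun v =>
        if v % 4 = 2 ∧ (Nat.unpair (v / 4)).1 = fs.length then x (Nat.unpair (v / 4)).2 else
        if v % 4 = 3 ∧ (Nat.unpair (v / 4)).1 = fs.length then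
          y (Nat.unpair (Nat.unpair (v / 4)).2).1 (Nat.unpair (Nat.unpair (v / 4)).2).2 else X v
      have a1 : ∀ j i, vx j i / 4 = Nat.pair j i := by intro j i; simp only [vx]; omega
      have a2 : ∀ j i k, vw j i k / 4 = Nat.pair j (Nat.pair i k) := by
        intro j i k; simp only [vw]; omega
      have a5 : ∀ j i, vx j i % 4 = 2 := by intro j i; simp only [vx]; omega
      have a6 : ∀ j i k, vw j i k % 4 = 3 := by intro j i k; simp only [vw]; omega
      have a7 : ∀ i, vs i % 4 = 0 := by intro i; simp only [vs]; omega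
      have a8 : ∀ i, (4 * i + 1) % 4 = 1 := by intro i; omega
      have b0 : ∀ i, X' (vs i) = X (vs i) := by
        intro i
        simp [X', a7]
      have bz : ∀ i, X' (4 * i + 1) = X (4 * i + 1) := by
        intro i
        simp [X', a8]
      have b1 : ∀ i, X' (vx fs.length i) = x i := by
        intro i
        simp [X', a1, a5, Nat.unpair_pair]
      have b2 : ∀ i k, X' (vw fs.length i k) = y i k := by
        intro i k
        simp [X', a2, a6, Nat.unpair_pair]
      have b3 : ∀ j < fs.length, ∀ i, X (vx j i) = X' (vx j i) := by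
        intro j hj i
        simp [X', a1, a5, Nat.unpair_pair, hj.ne]
      have b4 : ∀ j < fs.length, ∀ i k, X (vw j i k) = X' (vw j i k) := by
        intro j hj i k
        simp [X', a2, a6, Nat.unpair_pair, hj.ne]
      refine ⟨X', fun i => (b0 i).trans (h0 i), fun i => (bz i).trans (hz i), ?_⟩
      rw [sL_cons]
      refine ⟨?_, sL_congr t fs X X' (fun i => (b0 i).symm) b3 b4 h1⟩
      have e0 : (fun i => X' (vs i)) = s := funext fun i => (b0 i).trans (h0 i)
      have e1 : (fun i => X' (vx fs.length i)) = x := funext b1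
      have e2 : (fun i k => X' (vw fs.length i k)) = y := funext fun i => funext fun k => b2 i k
      rw [e0, e1, e2]
      exact h2

theorem tr_iff [IsDomain R] (a : List PL × List Eqn × PL) : Sol t (tr a) ↔ PSol t a := by
  have hget : ∀ i b, a.1[i]? = some b ↔ i < a.1.length ∧ a.1.getD i [] = b := by
    intro i b
    rw [List.getD_eq_getElem?_getD]
    constructor
    · intro h
      refine ⟨?_, by rw [h]; rfl⟩
      by_contra hi
      rw [List.getElem?_eq_none (by omega)] at h
      exact absurd h (by simp)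
    · rintro ⟨h1, h2⟩
      rw [List.getElem?_eq_getElem h1] at h2 ⊢
      simpa using h2
  constructor
  · rintro ⟨X, h1, h2⟩
    have h2' := (CB90.De.ev_pB_ne t X a.1 a.2.2 a.1.length).1 h2
    refine ⟨fun i => X (vs i), ?_, h2'.1, ?_⟩
    · intro i b hb
      refine ⟨?_, X (4 * i + 1), ?_⟩
      · rw [← ev_mul1_nil]
        exact h1 _ (List.mem_append_left _ (List.mem_map_of_mem (List.mem_of_getElem? hb)))
      · obtain ⟨h3, h4⟩ := (hget i b).1 hb
        have h5 := h2'.2 i h3
        rw [h4] at h5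
        exact h5
    · intro f hf
      rw [exists_val]
      exact (sL_sat t (fun i => X (vs i)) (fun i => X (4 * i + 1)) a.2.1).1
        ⟨X, fun _ => rfl, fun _ => rfl, fun g hg => h1 g (List.mem_append_right _ hg)⟩ f hf
  · rintro ⟨s, hb, hg, h2⟩
    have hz : ∀ i, ∃ z : R, i < a.1.length →
        ev t (Function.update s (i + 1) z) (a.1.getD i []) ≠ 0 := by
      intro i
      by_cases hi : i < a.1.length
      · obtain ⟨z, hz⟩ := (hb i (a.1.getD i []) ((hget i _).2 ⟨hi, rfl⟩)).2
        exact ⟨z, fun _ => hz⟩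
      · exact ⟨0, fun h => absurd h hi⟩
    choose z hz using hz
    obtain ⟨X, h3, h3', h4⟩ := (sL_sat t s z a.2.1).2 fun f hf => (exists_val t s f).1 (h2 f hf)
    have e0 : (fun i => X (vs i)) = s := funext h3
    refine ⟨X, ?_, ?_⟩
    · intro f hf
      rcases List.mem_append.1 hf with hf | hf
      · obtain ⟨b, hb1, rfl⟩ := List.mem_map.1 hf
        obtain ⟨i, hi⟩ := List.getElem?_of_mem hb1
        rw [ev_mul1_nil, e0]
        exact (hb i b hi).1
      · exact h4 f hf
    · show ev t X (pB a.1 a.2.2 a.1.length) ≠ 0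
      rw [CB90.De.ev_pB_ne, e0]
      refine ⟨hg, fun i hi => ?_⟩
      rw [h3' i]
      exact hz i hi

end sem

section prim

open Primrec

theorem primrec_vw : Primrec fun x : (ℕ × ℕ) × ℕ => vw x.1.1 x.1.2 x.2 :=
  Primrec.nat_add.comp (Primrec.nat_mul.comp (Primrec.const 4)
    (Primrec₂.natPair.comp (Primrec.fst.comp Primrec.fst)
      (Primrec₂.natPair.comp (Primrec.snd.comp Primrec.fst) Primrec.snd))) (Primrec.const 3)

theorem primrec_rw : Primrec₂ (fun (x : ℕ × ℕ) (c : PL) => ren (vw x.1 x.2) c) := by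
  have h1 : Primrec₂ (fun (x : (ℕ × ℕ) × PL) (m : ℕ × List ℕ) =>
      (m.1, m.2.map (vw x.1.1 x.1.2))) := by
    have hm1 : Primrec (fun y : ((ℕ × ℕ) × PL) × (ℕ × List ℕ) => y.2.1) :=
      Primrec.fst.comp Primrec.snd
    have hm2 : Primrec (fun y : ((ℕ × ℕ) × PL) × (ℕ × List ℕ) => y.2.2) :=
      Primrec.snd.comp Primrec.snd
    have hv : Primrec₂ (fun (y : ((ℕ × ℕ) × PL) × (ℕ × List ℕ)) (k : ℕ) =>
        vw y.1.1.1 y.1.1.2 k) :=
      primrec_vw.comp (Primrec.pair (Primrec.fst.comp (Primrec.fst.comp Primrec.fst))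
        Primrec.snd)
    exact Primrec.pair hm1 (Primrec.list_map hm2 hv)
  exact Primrec.list_map (f := fun x : (ℕ × ℕ) × PL => x.2) Primrec.snd h1

theorem primrec_dL : Primrec₂ dL := by
  have hj : Primrec (fun y : (ℕ × List (PL × PL)) × ((PL × PL) × List (PL × PL) × PL) => y.1.1) :=
    Primrec.fst.comp Primrec.fst
  have hm : Primrec (fun y : (ℕ × List (PL × PL)) × ((PL × PL) × List (PL × PL) × PL) => y.2.1) :=
    Primrec.fst.comp Primrec.snd
  have hl : Primrec (fun y : (ℕ × List (PL × PL)) × ((PL × PL) × List (PL × PL) × PL) =>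
      y.2.2.1.length) :=
    Primrec.list_length.comp (Primrec.fst.comp (Primrec.snd.comp Primrec.snd))
  have hi : Primrec (fun y : (ℕ × List (PL × PL)) × ((PL × PL) × List (PL × PL) × PL) =>
      y.2.2.2) :=
    Primrec.snd.comp (Primrec.snd.comp Primrec.snd)
  have h : Primrec₂ (fun (x : ℕ × List (PL × PL)) (y : (PL × PL) × List (PL × PL) × PL) =>
      tm x.1 y.2.1.length y.1 ++ y.2.2) :=
    Primrec.list_append.comp (CB90.De.primrec_mulP.comp
      (CB90.De.primrec_mul1.comp (Primrec.const []) (Primrec.fst.comp hm))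
      (primrec_rw.comp (Primrec.pair hj hl) (Primrec.snd.comp hm))) hi
  have h2 := Primrec.list_rec (f := fun x : ℕ × List (PL × PL) => x.2)
    (g := fun _ => ([] : PL)) Primrec.snd (Primrec.const _) h
  refine h2.of_eq fun x => ?_
  obtain ⟨j, l⟩ := x
  show _ = dL j l
  induction l with
  | nil => rfl
  | cons v l ih =>
    simp only [dL, ← ih]

theorem primrec_eL : Primrec₂ eL :=
  Primrec.list_append.comp (CB90.De.primrec_qL.comp Primrec.fst (Primrec.fst.comp Primrec.snd))
    (primrec_dL.comp Primrec.fst (Primrec.snd.comp Primrec.snd))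

theorem primrec_sL : Primrec sL := by
  have h : Primrec₂ (fun (_ : List Eqn) (y : Eqn × List Eqn × List PL) =>
      eL y.2.1.length y.1 :: y.2.2) := by
    have hl : Primrec (fun y : List Eqn × (Eqn × List Eqn × List PL) => y.2.2.1.length) :=
      Primrec.list_length.comp (Primrec.fst.comp (Primrec.snd.comp Primrec.snd))
    have hf : Primrec (fun y : List Eqn × (Eqn × List Eqn × List PL) => y.2.1) :=
      Primrec.fst.comp Primrec.snd
    exact Primrec.list_cons.comp (primrec_eL.comp hl hf)
      (Primrec.snd.comp (Primrec.snd.comp Primrec.snd))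
  have h2 := Primrec.list_rec (f := fun l : List Eqn => l) (g := fun _ => ([] : List PL))
    Primrec.id (Primrec.const _) h
  refine h2.of_eq fun l => ?_
  induction l with
  | nil => rfl
  | cons f l ih =>
    simp only [sL, ← ih]

theorem primrec_pB : Primrec fun a : List PL × List Eqn × PL => pB a.1 a.2.2 a.1.length := by
  have h1 : Primrec fun a : List PL × List Eqn × PL =>
      ((a.1, ([] : List CB90.Eqn), a.2.2) : List PL × List CB90.Eqn × PL) :=
    Primrec.pair Primrec.fst (Primrec.pair (Primrec.const _) (Primrec.snd.comp Primrec.snd))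
  exact CB90.De.primrec_pB.comp h1

theorem primrec_tr : Primrec tr := by
  have h1 : Primrec fun a : List PL × List Eqn × PL => a.1.map (mul1 []) :=
    Primrec.list_map Primrec.fst
      (CB90.De.primrec_mul1.comp (Primrec.const []) Primrec.snd).to₂
  exact Primrec.pair (Primrec.list_append.comp h1
    (primrec_sL.comp (Primrec.fst.comp Primrec.snd))) primrec_pB

/-- the degree of the first monomial -/
def d0 (F : PL) : ℕ := F.headI.2.length

theorem form_iff (p : ℕ) [Fact p.Prime] (F : PL) : Form p F ↔ F.length = 0 ∨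
    (¬ d0 F % p = 0 ∧ (∀ m ∈ F, m.2.length = d0 F) ∧
      (d0 F ≤ 3 ∨ ∀ m ∈ F, ∀ i ∈ m.2, i = 0)) := by
  constructor
  · rintro ⟨d, h1, h2, h3⟩
    rcases F with _ | ⟨m, F⟩
    · exact Or.inl rfl
    · have hd : d0 (m :: F) = d := h2 m List.mem_cons_self
      rw [hd]
      exact Or.inr ⟨fun h => h1 (Nat.dvd_of_mod_eq_zero h), h2, h3⟩
  · rintro (h | ⟨h1, h2, h3⟩)
    · have hF : F = [] := List.length_eq_zero_iff.1 h
      subst hF
      refine ⟨1, fun h => (Fact.out : p.Prime).one_lt.ne' (Nat.dvd_one.1 h), ?_,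
        Or.inl (by norm_num)⟩
      intro m hm
      simp at hm
    · exact ⟨d0 F, fun h => h1 (Nat.mod_eq_zero_of_dvd h), h2, h3⟩

theorem primrec_form (p : ℕ) [Fact p.Prime] : PrimrecPred (Form p) := by
  have hd : Primrec d0 := Primrec.list_length.comp (Primrec.snd.comp
    (Primrec.list_headI : Primrec (@List.headI (ℕ × List ℕ) _)))
  have e0 : PrimrecPred fun F : PL => F.length = 0 :=
    Primrec.eq.comp Primrec.list_length (Primrec.const 0)
  have e1 : PrimrecPred fun F : PL => d0 F % p = 0 :=
    Primrec.eq.comp (Primrec.nat_mod.comp hd (Primrec.const p)) (Primrec.const 0)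
  have r2 : PrimrecRel fun (m : ℕ × List ℕ) (d : ℕ) => m.2.length = d :=
    Primrec.eq.comp (Primrec.list_length.comp (Primrec.snd.comp Primrec.fst)) Primrec.snd
  have e2 : PrimrecPred fun F : PL => ∀ m ∈ F, m.2.length = d0 F :=
    (PrimrecRel.forall_mem_list r2).comp Primrec.id hd
  have e3 : PrimrecPred fun F : PL => d0 F ≤ 3 := Primrec.nat_le.comp hd (Primrec.const 3)
  have r4 : PrimrecPred fun i : ℕ => i = 0 := Primrec.eq.comp Primrec.id (Primrec.const 0)
  have e4 : PrimrecPred fun F : PL => ∀ m ∈ F, ∀ i ∈ m.2, i = 0 :=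
    (r4.forall_mem_list.comp (Primrec.snd : Primrec fun m : ℕ × List ℕ => m.2)).forall_mem_list
  exact (e0.or (e1.not.and (e2.and (e3.or e4)))).of_eq fun F => (form_iff p F).symm

theorem primrec_adm (p : ℕ) [Fact p.Prime] : PrimrecPred (Adm p) := by
  have pv : PrimrecRel fun (c : PL) (n : ℕ) => Vars n c := CB90.De.primrec_vars
  have h1 : PrimrecRel fun (m : PL × List ℕ) (n : ℕ) =>
      Vars n m.1 ∧ m.2.length ≤ 2 ∧ (p = 2 → m.2.length ≤ 1) := by
    have e0 : PrimrecPred fun x : (PL × List ℕ) × ℕ => Vars x.2 x.1.1 :=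
      pv.comp (Primrec.fst.comp Primrec.fst) Primrec.snd
    have e1 : PrimrecPred fun x : (PL × List ℕ) × ℕ => x.1.2.length ≤ 2 :=
      Primrec.nat_le.comp (Primrec.list_length.comp (Primrec.snd.comp Primrec.fst))
        (Primrec.const 2)
    have e2 : PrimrecPred fun x : (PL × List ℕ) × ℕ => x.1.2.length ≤ 1 :=
      Primrec.nat_le.comp (Primrec.list_length.comp (Primrec.snd.comp Primrec.fst))
        (Primrec.const 1)
    by_cases hp : p = 2
    · exact (e0.and (e1.and e2)).of_eq fun m => by simp [hp]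
    · exact (e0.and e1).of_eq fun m => by simp [hp]
  have h2 : PrimrecRel fun (m : PL × PL) (n : ℕ) => Vars n m.1 ∧ Form p m.2 := by
    have e0 : PrimrecPred fun x : (PL × PL) × ℕ => Vars x.2 x.1.1 :=
      pv.comp (Primrec.fst.comp Primrec.fst) Primrec.snd
    have e1 : PrimrecPred fun x : (PL × PL) × ℕ => Form p x.1.2 :=
      (primrec_form p).comp (Primrec.snd.comp Primrec.fst)
    exact e0.and e1
  have h3 : PrimrecRel fun (f : Eqn) (n : ℕ) =>
      (∀ m ∈ f.1, Vars n m.1 ∧ m.2.length ≤ 2 ∧ (p = 2 → m.2.length ≤ 1)) ∧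
        ∀ m ∈ f.2, Vars n m.1 ∧ Form p m.2 :=
    ((PrimrecRel.forall_mem_list h1).comp (Primrec.fst.comp Primrec.fst) Primrec.snd).and
      ((PrimrecRel.forall_mem_list h2).comp (Primrec.snd.comp Primrec.fst) Primrec.snd)
  have h4 : PrimrecPred fun a : List PL × List Eqn × PL => ∀ f ∈ a.2.1,
      (∀ m ∈ f.1, Vars a.1.length m.1 ∧ m.2.length ≤ 2 ∧ (p = 2 → m.2.length ≤ 1)) ∧
        ∀ m ∈ f.2, Vars a.1.length m.1 ∧ Form p m.2 :=
    (PrimrecRel.forall_mem_list h3).comp (Primrec.fst.comp Primrec.snd)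
      (Primrec.list_length.comp Primrec.fst)
  have h5 : PrimrecPred fun a : List PL × List Eqn × PL => Vars a.1.length a.2.2 :=
    pv.comp (Primrec.snd.comp Primrec.snd) (Primrec.list_length.comp Primrec.fst)
  have h6 : PrimrecRel fun (i : ℕ) (B : List PL) => Vars (i + 1) (B.getD i []) := by
    have c1 : Primrec fun x : ℕ × List PL => x.2.getD x.1 [] :=
      (Primrec.list_getD ([] : PL)).comp Primrec.snd Primrec.fst
    exact pv.comp c1 (Primrec.succ.comp Primrec.fst)
  have h7 : PrimrecPred fun a : List PL × List Eqn × PL =>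
      ∀ i ∈ List.range a.1.length, Vars (i + 1) (a.1.getD i []) :=
    (PrimrecRel.forall_mem_list h6).comp
      (Primrec.list_range.comp (Primrec.list_length.comp Primrec.fst)) Primrec.fst
  refine (h7.and (h4.and h5)).of_eq fun a => ?_
  refine and_congr_left fun _ => ?_
  constructor
  · intro h i b hb
    have hi : i < a.1.length := by
      by_contra hi
      rw [List.getElem?_eq_none (by omega)] at hb
      exact absurd hb (by simp)
    have h8 := h i (List.mem_range.2 hi)
    rw [List.getD_eq_getElem?_getD, hb] at h8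
    exact h8
  · intro h i hi
    have hi' := List.mem_range.1 hi
    refine h i _ ?_
    rw [List.getD_eq_getElem?_getD, List.getElem?_eq_getElem hi']
    rfl

end prim

end De

open De in
/-- FB-5 (Dec.lean): the decision wrapper -/
theorem decide_psol (p : ℕ) [Fact p.Prime]
    (h : ∀ (M : Type) [Field M] (σ : P1 p →+* M), Mdl p σ → ∀ a : List PL × List Eqn × PL,
      Adm p a → (PSol (σ Polynomial.X) a ↔ PSol (tauK p Polynomial.X) a)) :
    ∃ D : List PL × List Eqn × PL → Bool, Computable D ∧ ∀ a : List PL × List Eqn × PL,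
      Adm p a → (D a = true ↔ PSol (HahnSeries.single 1 1 : LaurentSeries (ZMod p)) a) := by
  obtain ⟨D, hD, hDe⟩ := OP90.De.decide_gen p tr primrec_tr (Adm p)
    (primrec_adm p) (fun M _ σ hM a ha => by
      rw [tr_iff, tr_iff]
      exact h M σ hM a ha)
  refine ⟨D, hD, fun a ha => ?_⟩
  rw [hDe a ha, tr_iff]

end FB90
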