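import Pool.Agent.FB90.Defs
import Pool.Agent.CB90.Down

/-!
# From solutions algebraic over the parameter to solutions in `k0`
-/

set_option maxSynthPendingDepth 10

namespace FB90

open FT80 BF80 LD90 Filter

namespace Dn

section map

variable {R S : Type*} [CommRing R] [CommRing S]

theorem fv_map (φ : R →+* S) (t : R) (s : ℕ → R) (l : List (PL × PL)) : ∀ y : ℕ → ℕ → R,
    fv (φ t) (fun i => φ (s i)) l (fun i k => φ (y i k)) = φ (fv t s l y) := by
  induction l with
  | nil => intro y; simp [fv]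
  | cons a l ih =>
    intro y
    obtain ⟨a, F⟩ := a
    rw [fv, fv, map_add, map_mul, CB90.ev_map', CB90.ev_map']
    congr 1
    exact ih fun i => y (i + 1)

theorem val_map (φ : R →+* S) (t : R) (s x : ℕ → R) (y : ℕ → ℕ → R) (f : Eqn) :
    Eqn.val (φ t) (fun i => φ (s i)) (fun i => φ (x i)) (fun i k => φ (y i k)) f =
      φ (Eqn.val t s x y f) := by
  rw [Eqn.val, Eqn.val, map_add, fv_map]
  congr 1
  exact CB90.qv_map φ t s x f.1

theorem PSol.map (φ : R →+* S) (hφ : Function.Injective φ) {t : R}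
    {a : List PL × List Eqn × PL} (h : PSol t a) : PSol (φ t) a := by
  obtain ⟨s, h0, h1, h2⟩ := h
  refine ⟨fun i => φ (s i), CB90.Base.map φ hφ h0, ?_, fun f hf => ?_⟩
  · rw [CB90.ev_map']
    exact fun h => h1 ((map_eq_zero_iff φ hφ).1 h)
  · obtain ⟨x, y, hxy⟩ := h2 f hf
    exact ⟨fun i => φ (x i), fun i k => φ (y i k), by rw [val_map, hxy, map_zero]⟩

end map

/-- from the ultrapower to the field -/
theorem psol_of_up {K : Type} [Field K] (t : K) (a : List PL × List Eqn × PL)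
    (h : PSol (diag K t) a) : PSol t a := by
  obtain ⟨sU, hB, hg, h⟩ := h
  have hS : ∀ i, ∃ r : ℕ → K, cl K r = sU i := fun i => cl_surj _
  choose S hS using hS
  obtain rfl : (fun i => cl K (S i)) = sU := funext hS
  have ht : diag K t = cl K (fun _ => t) := (cl_const t).symm
  have e0 : ∀ (S : ℕ → (ℕ → K)) (b : PL), ev (diag K t) (fun i => cl K (S i)) b = 0 →
      ∀ᶠ n in ((hyperfilter ℕ : Ultrafilter ℕ) : Filter ℕ), ev t (fun i => S i n) b = 0 := by
    intro S b h
    rw [ht, CB90.ev_map', ← map_zero (cl K), cl_eq] at h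
    filter_upwards [h] with n hn
    exact (CB90.ev_map' (Pi.evalRingHom (fun _ : ℕ => K) n) (fun _ => t) S b).trans hn
  have e1 : ∀ (S : ℕ → (ℕ → K)) (b : PL), ev (diag K t) (fun i => cl K (S i)) b ≠ 0 →
      ∀ᶠ n in ((hyperfilter ℕ : Ultrafilter ℕ) : Filter ℕ), ev t (fun i => S i n) b ≠ 0 := by
    intro S b h
    by_contra hcon
    rw [← Ultrafilter.eventually_not] at hcon
    apply h
    rw [ht, CB90.ev_map', ← map_zero (cl K), cl_eq]
    filter_upwards [hcon] with n hn
    exact (CB90.ev_map' (Pi.evalRingHom (fun _ : ℕ => K) n) (fun _ => t) S b).symm.trans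
      (not_not.1 hn)
  have c1 : ∀ᶠ n in ((hyperfilter ℕ : Ultrafilter ℕ) : Filter ℕ),
      ∀ i ∈ Finset.range a.1.length, ∀ b, a.1[i]? = some b → ev t (fun i => S i n) b = 0 ∧
        ∃ z, ev t (Function.update (fun j => S j n) (i + 1) z) b ≠ 0 := by
    rw [eventually_all_finset]
    intro i _
    rcases hb : a.1[i]? with _ | b
    · exact Eventually.of_forall fun n b hb' => by simp at hb'
    · obtain ⟨h1, zU, h2⟩ := hB i b hb
      obtain ⟨Z, rfl⟩ := cl_surj zU
      have h3 := e0 S b h1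
      have h4 : ev (diag K t) (fun j => cl K (Function.update S (i + 1) Z j)) b ≠ 0 := by
        rw [CB90.update_map]
        exact h2
      filter_upwards [h3, e1 _ b h4] with n h5 h6 b' hb'
      obtain rfl : b = b' := Option.some.inj hb'
      refine ⟨h5, Z n, ?_⟩
      have e := CB90.update_map (Pi.evalRingHom (fun _ : ℕ => K) n) S (i + 1) Z
      have e' : (fun j => Function.update S (i + 1) Z j n)
          = Function.update (fun j => S j n) (i + 1) (Z n) := e
      rw [← e']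
      exact h6
  have c2 := e1 S a.2.2 hg
  have c3 : ∀ᶠ n in ((hyperfilter ℕ : Ultrafilter ℕ) : Filter ℕ),
      ∀ f ∈ {f | f ∈ a.2.1}, ∃ (x : ℕ → K) (y : ℕ → ℕ → K),
        Eqn.val t (fun i => S i n) x y f = 0 := by
    rw [Filter.eventually_all_finite (List.finite_toSet a.2.1)]
    intro f hf
    obtain ⟨x, y, hxy⟩ := h f hf
    have hx : ∀ i, ∃ r : ℕ → K, cl K r = x i := fun i => cl_surj (x i)
    have hy : ∀ i k, ∃ r : ℕ → K, cl K r = y i k := fun i k => cl_surj (y i k)
    choose X hX using hx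
    choose Y hY using hy
    obtain rfl : (fun i => cl K (X i)) = x := funext hX
    obtain rfl : (fun i k => cl K (Y i k)) = y := funext fun i => funext fun k => hY i k
    rw [ht, val_map, ← map_zero (cl K), cl_eq] at hxy
    filter_upwards [hxy] with n hn
    refine ⟨fun i => X i n, fun i k => Y i k n, ?_⟩
    exact (val_map (Pi.evalRingHom (fun _ : ℕ => K) n) (fun _ => t) S X Y f).trans hn
  obtain ⟨n, h1, h2, h3⟩ := (c1.and (c2.and c3)).exists
  refine ⟨fun i => S i n, fun i b hb => ?_, h2, fun f hf => h3 f hf⟩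
  have hi : i < a.1.length := (List.getElem?_eq_some_iff.1 hb).1
  exact h1 i (Finset.mem_range.2 hi) b hb

/-- pull back along an injective ring homomorphism -/
theorem PSol.comap {R M : Type*} [CommRing R] [CommRing M] (φ : R →+* M)
    (hφ : Function.Injective φ) (t : R) (a : List PL × List Eqn × PL) (s : ℕ → M)
    (hs : ∀ i, ∃ r, φ r = s i)
    (hB : ∀ i b, a.1[i]? = some b → ev (φ t) s b = 0 ∧
      ∃ z : R, ev (φ t) (Function.update s (i + 1) (φ z)) b ≠ 0)
    (hg : ev (φ t) s a.2.2 ≠ 0)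
    (h : ∀ f ∈ a.2.1, ∃ (x : ℕ → M) (y : ℕ → ℕ → M), (∀ i, ∃ r, φ r = x i) ∧
      (∀ i k, ∃ r, φ r = y i k) ∧ Eqn.val (φ t) s x y f = 0) : PSol t a := by
  choose S hS using hs
  obtain rfl : (fun i => φ (S i)) = s := funext hS
  refine ⟨S, fun i b hb => ?_, ?_, fun f hf => ?_⟩
  · obtain ⟨h1, z, h2⟩ := hB i b hb
    refine ⟨?_, z, ?_⟩
    · rw [CB90.ev_map'] at h1
      exact (map_eq_zero_iff φ hφ).1 h1
    · intro h3
      apply h2
      rw [← CB90.update_map, CB90.ev_map', h3, map_zero]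
  · intro h3
    apply hg
    rw [CB90.ev_map', h3, map_zero]
  · obtain ⟨x, y, hx, hy, h0⟩ := h f hf
    choose X hX using hx
    choose Y hY using hy
    obtain rfl : (fun i => φ (X i)) = x := funext hX
    obtain rfl : (fun i k => φ (Y i k)) = y := funext fun i => funext fun k => hY i k
    refine ⟨X, Y, ?_⟩
    rw [val_map] at h0
    exact (map_eq_zero_iff φ hφ).1 h0

end Dn

/-- FB-4 (Down.lean): from elements algebraic over the parameter to `k0` -/
theorem down {p : ℕ} [Fact p.Prime] {M : Type} [Field M] {σ : P1 p →+* M} (hM : Mdl p σ)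
    (s : ℕ → M) (hs : ∀ i, OP90.RAlg σ (s 0) (s i)) (a : List PL × List Eqn × PL)
    (hB : Base (σ Polynomial.X) a.1 s) (hg : ev (σ Polynomial.X) s a.2.2 ≠ 0)
    (h : ∀ f ∈ a.2.1, ∃ (x : ℕ → M) (y : ℕ → ℕ → M), (∀ i, OP90.RAlg σ (s 0) (x i)) ∧
      (∀ i k, OP90.RAlg σ (s 0) (y i k)) ∧ Eqn.val (σ Polynomial.X) s x y f = 0) :
    PSol (sig0 p Polynomial.X) a := by
  have hσinf : ∀ E : Subfield M, (∀ f, σ f ∈ E) → Infinite E := by
    intro E hE
    have hinj : Function.Injective (σ.codRestrict E hE) := by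
      intro u v huv
      exact hM.σ_injective (congrArg Subtype.val huv)
    exact Infinite.of_injective _ hinj
  by_cases h0 : BF80.Alg1 σ (s 0)
  · -- everything is algebraic over `F_p(t)`
    obtain ⟨j, hj, hj2, -⟩ := hM.exists_j
    have hjE : ∀ f, σ f ∈ j.fieldRange := fun f => ⟨sig0 p f, hj f⟩
    have hinf : Infinite j.fieldRange := hσinf _ hjE
    have hsE : ∀ i, s i ∈ j.fieldRange := fun i => (hj2 _).1 ((hs i).1 h0)
    refine Dn.PSol.comap j j.injective (sig0 p Polynomial.X) a s hsE ?_ ?_ ?_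
    · intro i b hb
      obtain ⟨h1, z, h2⟩ := hB i b hb
      rw [hj]
      obtain ⟨z', ⟨r, hr⟩, hz'⟩ := CB90.down_z j.fieldRange (σ Polynomial.X) (hjE _) s hsE (i + 1)
        b ⟨z, h2⟩
      exact ⟨h1, r, by rw [hr]; exact hz'⟩
    · rw [hj]
      exact hg
    · intro f hf
      obtain ⟨x, y, hx, hy, hxy⟩ := h f hf
      exact ⟨x, y, fun i => (hj2 _).1 ((hx i).1 h0), fun i k => (hj2 _).1 ((hy i k).1 h0), by
        rw [hj]; exact hxy⟩
  · -- the parameter is transcendental
    apply Dn.psol_of_up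
    obtain ⟨ι, hι, hsA, -⟩ := starC hM (s 0) h0 ∅ Set.countable_empty
    obtain ⟨htA, htι⟩ := hι Polynomial.X
    have hE : ∀ f, σ f ∈ algField (ev1 σ (s 0)) := fun f => (hι f).1
    have hinf : Infinite (algField (ev1 σ (s 0))) := hσinf _ hE
    have hs2 : ∀ i, s i ∈ algField (ev1 σ (s 0)) := fun i => (hs i).2
    rw [← htι]
    refine Dn.PSol.map ι ι.injective ?_
    refine Dn.PSol.comap (algField (ev1 σ (s 0))).subtype
      (algField (ev1 σ (s 0))).subtype.injective ⟨σ Polynomial.X, htA⟩ a s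
      (fun i => ⟨⟨s i, hs2 i⟩, rfl⟩) ?_ hg ?_
    · intro i b hb
      obtain ⟨h1, z, h2⟩ := hB i b hb
      obtain ⟨z', hz, hz'⟩ := CB90.down_z (algField (ev1 σ (s 0))) (σ Polynomial.X) htA s hs2
        (i + 1) b ⟨z, h2⟩
      exact ⟨h1, ⟨z', hz⟩, hz'⟩
    · intro f hf
      obtain ⟨x, y, hx, hy, hxy⟩ := h f hf
      have hx2 : ∀ i, x i ∈ algField (ev1 σ (s 0)) := fun i => (hx i).2
      have hy2 : ∀ i k, y i k ∈ algField (ev1 σ (s 0)) := fun i k => (hy i k).2
      exact ⟨x, y, fun i => ⟨⟨x i, hx2 i⟩, rfl⟩, fun i k => ⟨⟨y i k, hy2 i k⟩, rfl⟩, hxy⟩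

end FB90
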