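import Pool.Agent.FB90.Core
import Pool.Agent.FB90.Dec
import Pool.Agent.FB90.ValueClass
import Pool.Agent.OP90.ConstDiag
import Pool.Agent.OP90.QuadNF

/-!
# Equations over a base of dimension one over `F_p((t))`
-/

set_option maxSynthPendingDepth 10

namespace FB90

open FT80 BF80 LD90

theorem cd_holds (p : ℕ) [Fact p.Prime] : OP90.CD p := fun hM j hj _ e he β β0 z h =>
  OP90.const_diag hM j hj e he β β0 z h

theorem qnf_holds : OP90.QNF := fun j h2 _ q hq => OP90.quad_nf j h2 q hq

theorem vcl_holds {p : ℕ} [Fact p.Prime] {M : Type} [Field M] {σ : P1 p →+* M} (hM : Mdl p σ) :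
    VCl p σ := fun F d hd hF hF' y => value_class hM F d hd hF hF' y

/-- the decision procedure -/
theorem over_curves (p : ℕ) [Fact p.Prime] :
    ∃ D : List PL × List Eqn × PL → Bool, Computable D ∧ ∀ a : List PL × List Eqn × PL,
      Adm p a → (D a = true ↔ PSol (HahnSeries.single 1 1 : LaurentSeries (ZMod p)) a) :=
  decide_psol p fun _ _ _ hM a ha =>
    (psol_k0 (vcl_holds hM) (cd_holds p) qnf_holds hM a ha).trans
      (psol_k0 (vcl_holds mdl_KK) (cd_holds p) qnf_holds mdl_KK a ha).symm

end FB90
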